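import Pool.Agent.H24.GJ.CycMap

/-!
# JOB GJ-3: covers of a connected graph without a branch vertex

(⇒) `F` a cover, `sim_of_cover`, `cyc_nec`. (⇐) If `H` has a vertex of the core then `Tc H` (`hc`, `covIff_lev` in the file
`Pool.Agent.H24.GG.CovIff`), `cyc_core`, `tree_ext`. Otherwise `G` has no vertex of the core (`cr_typed`), `forest_cov`.
-/

namespace Pool.Agent.H24.GJ

open Pool.Agent.H24.GC Pool.Agent.H24.GG

variable {A V : Type} {G : SimpleGraph A} {H : SimpleGraph V} {π : A → V}

theorem nb_cov_iff [Finite A] [Finite V] (hc : H.Connected) (hb : ∀ v, ¬ Br H v)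
    (hπ : Typed G H π) : Covers G H ↔ CycOK G H π := by
  constructor
  · rintro ⟨F, hF⟩
    exact cyc_nec hb hF (sim_of_cover hπ hF)
  · intro hok
    by_cases h : ∃ b, Cr H b
    · obtain ⟨b, hbc⟩ := h
      have hT : Tc H := by
        intro v
        obtain ⟨p⟩ := hc.preconnected v b
        exact covIff_lev H p hbc
      obtain ⟨F₀, h1, h2⟩ := cyc_core hπ hb hok
      exact tree_ext hπ hT h1 h2
    · refine forest_cov hπ ?_
      intro a ha
      exact h ⟨π a, (cr_typed hπ a).1 ha⟩

end Pool.Agent.H24.GJ
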