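import Pool.Agent.H24.GG.Ext

/-!
# JOB GJ-1: covers of graphs without a core

Project GJ (helper24), MP_cb20e7_lc: graphs without a branch vertex (trees and graphs with one cycle).

`for_rank`: by induction on `C.card`: let `C` be not empty. If every vertex of `C` had two different neighbours in `C` then `C` would
satisfy `Mn2 G C`, so a vertex of `C` would be in the core. So there is `v ∈ C` with at most one neighbour in `C`; take `r` for
`C.erase v` and put `r' v = 0`, `r' u = r u + 1` for the others.
`for_par`: `C = Finset.univ`: a parent function: `p v = some u` iff `u` is the neighbour of `v` with `r v < r u` (at most one);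
if `G.Adj v u` then `p v = some u` or `p u = some v` (`r` is injective), not both.
`for_beta`: `nb_bij` gives a bijection `e` of `N(a)` to `N(x)` with `Sim H (e b) (π b)`; let `b₀ = e⁻¹ y` (`y ∈ N(x)`), and exchange the
values at `b` and `b₀`: `e' = e ∘ Equiv.swap b b₀`: `Sim H (e b₀) (π b₀)`, i.e. `Sim H y (π b₀)`, and `Sim H y (π b)`, so `Sim (π b₀) (π b)`.
`forest_cov`. States `V × (A → V)`: the value of the vertex and a bijection of its neighbourhood. By `ext_rec` (file
`Pool.Agent.H24.GG.Ext`; `d v = M - r v` for a bound `M` of the `r v`, or any decreasing function of `r`; `P v`: `p v = none`; the state of a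
vertex `v` with `p v = none` is `(π v, e)` with `e` from `nb_bij` for `x = π v`; the state of a vertex `v` with the parent `u` is
`(β v, β')` where `(y, β)` is the state of `u` and `β'` is a bijection from `for_beta` for `a = v`, `x = β v`, `b = u`, with the
value `y` at `u` (if the conditions hold, otherwise anything)). By induction (well-founded on `d`) the state `(F v, β_v)` of every
vertex `v` satisfies: `Sim H (F v) (π v)`, `β_v` is a bijection of `N(v)` to `N(F v)` with `Sim H (β_v b) (π b)`, and
`β_v u = F u` if `u` is the parent of `v`. (`β_u v ∈ N(F u)`, so `F u ∈ N(F v)`.) For a neighbour `w` of `v`: `F w = β_v w`: if `w` is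
the parent of `v` this is the last property, otherwise `v` is the parent of `w` and this is the definition of `F w`. So `F` is a
cover.
-/

namespace Pool.Agent.H24.GJ

open Pool.Agent.H24.GC Pool.Agent.H24.GG

variable {A V : Type} {G : SimpleGraph A} {H : SimpleGraph V} {π : A → V}

theorem for_rank [DecidableEq A] (h0 : ∀ a, ¬ Cr G a) (C : Finset A) :
    ∃ r : A → ℕ, (∀ u ∈ C, ∀ v ∈ C, r u = r v → u = v) ∧
      ∀ v ∈ C, ∀ u ∈ C, ∀ u' ∈ C, G.Adj v u → G.Adj v u' → r v < r u → r v < r u' → u = u' := by
  generalize hn : C.card = n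
  induction n generalizing C with
  | zero =>
    rw [Finset.card_eq_zero] at hn
    subst hn
    exact ⟨fun _ => 0, by simp, by simp⟩
  | succ n ih =>
    have hne : C.Nonempty := Finset.card_pos.1 (by omega)
    have hex : ∃ v ∈ C, ∀ a ∈ C, ∀ b ∈ C, G.Adj v a → G.Adj v b → a = b := by
      by_contra hcon
      push Not at hcon
      obtain ⟨v, hv⟩ := hne
      refine h0 v ⟨(C : Set A), hv, ?_⟩
      intro u hu
      obtain ⟨a, ha, b, hb, h1, h2, h3⟩ := hcon u hu
      exact ⟨a, ha, b, hb, h3, h1, h2⟩
    obtain ⟨v, hv, hv1⟩ := hex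
    obtain ⟨r, hr1, hr2⟩ := ih (C.erase v) (by rw [Finset.card_erase_of_mem hv, hn]; rfl)
    refine ⟨fun u => if u = v then 0 else r u + 1, ?_, ?_⟩
    · intro u hu w hw huw
      by_cases h1 : u = v
      · by_cases h2 : w = v
        · rw [h1, h2]
        · simp only [h1, h2, if_true, if_false] at huw
          omega
      · by_cases h2 : w = v
        · simp only [h1, h2, if_true, if_false] at huw
          omega
        · simp only [h1, h2, if_false] at huw
          exact hr1 u (Finset.mem_erase.2 ⟨h1, hu⟩) w (Finset.mem_erase.2 ⟨h2, hw⟩) (by omega)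
    · intro w hw u hu u' hu' h1 h2 h3 h4
      by_cases hwv : w = v
      · subst hwv
        exact hv1 u hu u' hu' h1 h2
      · have hu1 : u ≠ v := by
          intro h
          simp only [h, hwv, if_true, if_false] at h3
          omega
        have hu1' : u' ≠ v := by
          intro h
          simp only [h, hwv, if_true, if_false] at h4
          omega
        simp only [hwv, hu1, if_false] at h3
        simp only [hwv, hu1', if_false] at h4
        exact hr2 w (Finset.mem_erase.2 ⟨hwv, hw⟩) u (Finset.mem_erase.2 ⟨hu1, hu⟩) u'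
          (Finset.mem_erase.2 ⟨hu1', hu'⟩) h1 h2 (by omega) (by omega)

theorem for_par [Finite A] (h0 : ∀ a, ¬ Cr G a) :
    ∃ (d : A → ℕ) (p : A → Option A), (∀ v u, p v = some u → G.Adj v u ∧ d u < d v) ∧
      ∀ v u, G.Adj v u → p v = some u ∨ p u = some v := by
  classical
  have := Fintype.ofFinite A
  obtain ⟨r, hr1, hr2⟩ := for_rank h0 (Finset.univ : Finset A)
  have hM : ∀ v, r v ≤ Finset.univ.sup r := fun v => Finset.le_sup (Finset.mem_univ v)
  refine ⟨fun v => Finset.univ.sup r - r v,
    fun v => if h : ∃ u, G.Adj v u ∧ r v < r u then some h.choose else none, ?_, ?_⟩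
  · intro v u hvu
    change (if h : ∃ u, G.Adj v u ∧ r v < r u then some h.choose else none) = some u at hvu
    change G.Adj v u ∧ Finset.univ.sup r - r u < Finset.univ.sup r - r v
    by_cases h : ∃ u, G.Adj v u ∧ r v < r u
    · rw [dif_pos h] at hvu
      have h1 := h.choose_spec
      rw [Option.some_injective _ hvu] at h1
      refine ⟨h1.1, ?_⟩
      have h2 := hM u
      have h3 := h1.2
      omega
    · rw [dif_neg h] at hvu
      exact absurd hvu (by simp)
  · have key : ∀ v u, G.Adj v u → r v < r u →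
        (if h : ∃ u, G.Adj v u ∧ r v < r u then some h.choose else none) = some u := by
      intro v u h1 h2
      have h : ∃ u, G.Adj v u ∧ r v < r u := ⟨u, h1, h2⟩
      rw [dif_pos h]
      have h3 := h.choose_spec
      rw [hr2 v (Finset.mem_univ _) _ (Finset.mem_univ _) u (Finset.mem_univ _) h3.1 h1 h3.2 h2]
    intro v u h1
    rcases lt_trichotomy (r v) (r u) with h | h | h
    · exact Or.inl (key v u h1 h)
    · exact absurd (hr1 v (Finset.mem_univ _) u (Finset.mem_univ _) h) h1.ne
    · exact Or.inr (key u v h1.symm h)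

theorem for_beta [Finite V] (hπ : Typed G H π) {a : A} {x : V} (h : Sim H x (π a)) {b : A}
    (hb : G.Adj a b) {y : V} (hy : H.Adj x y) (hs : Sim H y (π b)) :
    ∃ e : A → V, Set.BijOn e (G.neighborSet a) (H.neighborSet x) ∧
      (∀ b, G.Adj a b → Sim H (e b) (π b)) ∧ e b = y := by
  classical
  obtain ⟨e, he, hse⟩ := nb_bij hπ h
  obtain ⟨b₀, hb₀, hb₀y⟩ := he.surjOn hy
  have hsw : Set.BijOn (Equiv.swap b b₀) (G.neighborSet a) (G.neighborSet a) := by
    have hm : ∀ c ∈ G.neighborSet a, Equiv.swap b b₀ c ∈ G.neighborSet a := by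
      intro c hc
      rcases eq_or_ne c b with h1 | h1
      · rw [h1, Equiv.swap_apply_left]
        exact hb₀
      · rcases eq_or_ne c b₀ with h2 | h2
        · rw [h2, Equiv.swap_apply_right]
          exact hb
        · rw [Equiv.swap_apply_of_ne_of_ne h1 h2]
          exact hc
    exact ⟨hm, (Equiv.swap b b₀).injective.injOn, fun c hc =>
      ⟨Equiv.swap b b₀ c, hm c hc, Equiv.swap_apply_self b b₀ c⟩⟩
  refine ⟨fun c => e (Equiv.swap b b₀ c), he.comp hsw, ?_, ?_⟩
  · intro c hc
    change Sim H (e (Equiv.swap b b₀ c)) (π c)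
    rcases eq_or_ne c b with h1 | h1
    · rw [h1, Equiv.swap_apply_left, hb₀y]
      exact hs
    · rcases eq_or_ne c b₀ with h2 | h2
      · rw [h2, Equiv.swap_apply_right]
        have h3 := hse b₀ hb₀
        rw [hb₀y] at h3
        exact sim_trans (hse b hb) (sim_trans (sim_symm hs) h3)
      · rw [Equiv.swap_apply_of_ne_of_ne h1 h2]
        exact hse c hc
  · change e (Equiv.swap b b₀ b) = y
    rw [Equiv.swap_apply_left, hb₀y]

theorem forest_cov [Finite A] [Finite V] (hπ : Typed G H π) (h0 : ∀ a, ¬ Cr G a) :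
    Covers G H := by
  classical
  obtain ⟨d, p, hp1, hp2⟩ := for_par (G := G) h0
  -- the local bijections
  have hB0 : ∀ v : A, ∃ e : A → V, Set.BijOn e (G.neighborSet v) (H.neighborSet (π v)) ∧
      ∀ b, G.Adj v b → Sim H (e b) (π b) := fun v => nb_bij hπ (sim_refl H (π v))
  choose E hE1 hE2 using hB0
  have hB1 : ∀ (v : A) (x : V) (b : A) (y : V), ∃ e : A → V, Sim H x (π v) → G.Adj v b →
      H.Adj x y → Sim H y (π b) → Set.BijOn e (G.neighborSet v) (H.neighborSet x) ∧
        (∀ c, G.Adj v c → Sim H (e c) (π c)) ∧ e b = y := by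
    intro v x b y
    by_cases h : Sim H x (π v) ∧ G.Adj v b ∧ H.Adj x y ∧ Sim H y (π b)
    · obtain ⟨e, he⟩ := for_beta hπ h.1 h.2.1 h.2.2.1 h.2.2.2
      exact ⟨e, fun _ _ _ _ => he⟩
    · exact ⟨π, fun h1 h2 h3 h4 => absurd ⟨h1, h2, h3, h4⟩ h⟩
  choose B hB using hB1
  obtain ⟨Φ, hΦ1, hΦ2⟩ := ext_rec (V := V × (A → V)) d (fun v => p v = none)
    (fun v => (p v).getD v) (fun v hv => by
      obtain ⟨u, hu⟩ := Option.ne_none_iff_exists'.1 hv
      rw [hu]
      exact (hp1 v u hu).2)
    (fun v => (π v, E v))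
    (fun v s => (s.2 v, B v (s.2 v) ((p v).getD v) s.1))
  have hstep : ∀ v u, p v = some u → Φ v = ((Φ u).2 v, B v ((Φ u).2 v) u (Φ u).1) := by
    intro v u hu
    have h1 := hΦ2 v (by rw [hu]; exact Option.some_ne_none u)
    simp only [hu, Option.getD_some] at h1
    exact h1
  have key : ∀ n, ∀ v, d v = n → Sim H (Φ v).1 (π v) ∧
      Set.BijOn (Φ v).2 (G.neighborSet v) (H.neighborSet (Φ v).1) ∧
      (∀ b, G.Adj v b → Sim H ((Φ v).2 b) (π b)) ∧
      ∀ u, p v = some u → (Φ v).2 u = (Φ u).1 := by
    intro n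
    induction n using Nat.strong_induction_on with
    | _ n ih =>
      intro v hv
      rcases hpv : p v with _ | u
      · have h1 := hΦ1 v hpv
        rw [h1]
        exact ⟨sim_refl H _, hE1 v, hE2 v, fun u hu => absurd hu (by simp)⟩
      · obtain ⟨h1, h2⟩ := hp1 v u hpv
        obtain ⟨g1, g2, g3, -⟩ := ih (d u) (by rw [← hv]; exact h2) u rfl
        have h3 := hB v ((Φ u).2 v) u (Φ u).1 (g3 v h1.symm) h1 (g2.mapsTo h1.symm).symm g1
        rw [hstep v u hpv]
        refine ⟨g3 v h1.symm, h3.1, h3.2.1, ?_⟩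
        intro u' hu'
        rw [← Option.some_injective _ hu']
        exact h3.2.2
  refine ⟨fun v => (Φ v).1, fun v => ?_⟩
  obtain ⟨-, h2, -, h4⟩ := key _ v rfl
  refine h2.congr fun w hw => ?_
  rcases hp2 v w hw with h | h
  · exact h4 w h
  · rw [hstep w v h]

end Pool.Agent.H24.GJ
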