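import Pool.Agent.H24.GG.Up1
import Pool.Agent.H24.GJ.Forest

/-!
# JOB GJ-2: maps of the cycles of the core

All graphs here have no branch vertices, so every vertex of the core has exactly two neighbours in the core (`cr_two`,
`nb_unique`), and `nxt G` (file `Pool.Agent.H24.GG.Up1`) maps the core arc `(p, q)` to the core arc `(q, t)`, `t ≠ p`.

`nxt_core`: unfold; `cr_two`. `nxt_rev`: the reversed arc: `nxt (nxt a).swap = a.swap` (`nb_unique`); so `nxt` is injective on the
core arcs. `nxt_per`: `A × A` is finite, `nxt` is injective on the core arcs, so `nxt^[m] a = a` for some `0 < m`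
(`m ≤ Nat.card (A × A)`: pigeonhole for `nxt^[i] a`, `i ≤ Nat.card (A × A)`, and injectivity).
`nxt_ne`: `nxt^[i] a ≠ a.swap`: this is the argument of `lab_no` in the file `Pool.Agent.H24.GG.Lab`, or: induction on `i`: if
`nxt^[i] a = a.swap` then `i ≥ 2` (`a.1 ≠ a.2`; `nxt a = (a.2, t)` with `t ≠ a.1`), and for `b = nxt a`: `nxt^[i - 2] b = b.swap`, as
`nxt b.swap = a.swap = nxt^[i] a = nxt (nxt^[i - 1] a)`, so `b.swap = nxt^[i - 1] a = nxt^[i - 2] b` by injectivity.
`nxt_simul`: let `(p, q)`, `(x, y)` be core arcs with `Sim H x (π p)`, `Sim H y (π q)`. Then `nxt G (p, q) = (q, t)`,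
`nxt H (x, y) = (y, z)` with `Sim H z (π t)`: by `typed_cn` at `q` there is a bijection `e` of `cn G q = {p, t}` to
`cn H (π q)`, with `Sim (e b) (π b)`, and `cn_card_sim`/`cn_sim` for `Sim H y (π q)`: the number of the `u ∈ cn H y` in a class is the
number for `cn H (π q)`. (`pw_sim`, `pw_exists` in the file `Pool.Agent.H24.GG.Par` state this for walks; use them: a step is a
walk `PW`.) Iterate.

`cyc_core`. Let `CycOK`. Two core arcs are in the same cycle if one is `nxt^[i]` of the other or of its reverse: an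
equivalence relation on the core arcs (`nxt_per`, `nxt_rev`). Choose a representative `b` of every class, and `h = (x, y)` from `CycOK`
for `b`. For a vertex `v` of the core choose a core arc `a = (v, u)`; its class has the representative `b`; `a = nxt^[i] b` or
`a = (nxt^[i] b).swap`. Every vertex `v` of the core is the tail of `nxt^[i] b` for some `i`, for exactly one representative `b` (if
`a = (nxt^[i] b).swap` then `v` is the head of `nxt^[i] b`, so the tail of `nxt^[i + 1] b`). Let `F₀ v` be the tail of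
`nxt^[i] h`. It does not depend on `i`: let `nxt^[i] b`, `nxt^[j] b` both have the tail `v`, `i ≤ j`. They are equal or they have the two
different core neighbours of `v` as heads; the latter is impossible (then `nxt^[j] b = (nxt^[i - 1] b).swap`, or, for `i = 0`,
add a period; `nxt_ne`). So `nxt^[j - i]` fixes `b` (injectivity), so it fixes `h` (`CycOK`), so `nxt^[i] h = nxt^[j] h`. (1)
follows from `nxt_simul`. (2): `cn G v = {u, u'}`, `nxt^[i] b = (v, u)`, `u'` is the tail of `nxt^[i - 1] b` (`i ≥ 1` by adding a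
period): `F₀ u`, `F₀ u'` are the tails of `nxt^[i + 1] h`, `nxt^[i - 1] h`, which are the two core neighbours of `F₀ v`.
`cyc_nec`: let `F` be a cover. It maps core arcs to core arcs, and `F (nxt G a) = nxt H (F a)` (`F` is injective on the
neighbourhoods, `cr_of_cover`, `nb_unique`). Take `(x, y) = (F p, F q)`.
-/

namespace Pool.Agent.H24.GJ

open Pool.Agent.H24.GC Pool.Agent.H24.GG

variable {A V : Type} {G : SimpleGraph A} {H : SimpleGraph V} {π : A → V}

/-- the cycles of the core of `G` can be mapped to cycles of the core of `H` -/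
def CycOK (G : SimpleGraph A) (H : SimpleGraph V) (π : A → V) : Prop :=
  ∀ p q, Cr G p → q ∈ cn G p → ∃ x y, Cr H x ∧ y ∈ cn H x ∧ Sim H x (π p) ∧ Sim H y (π q) ∧
    ∀ i, (nxt G)^[i] (p, q) = (p, q) → (nxt H)^[i] (x, y) = (x, y)

/-- core arcs -/
private def cyArc (G : SimpleGraph A) (a : A × A) : Prop := Cr G a.1 ∧ a.2 ∈ cn G a.1

theorem nxt_core [Finite A] (hb : ∀ v, ¬ Br G v) {a : A × A} (h : Cr G a.1) (h' : a.2 ∈ cn G a.1) :
    (nxt G a).1 = a.2 ∧ (nxt G a).2 ∈ cn G a.2 ∧ (nxt G a).2 ≠ a.1 ∧ Cr G (nxt G a).1 := by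
  have h1 : ∃ t, t ∈ cn G a.2 ∧ t ≠ a.1 := by
    obtain ⟨b, hb, c, hc, hbc⟩ := cr_two h'.2
    by_cases hba : b = a.1
    · exact ⟨c, hc, fun h => hbc (hba.trans h.symm)⟩
    · exact ⟨b, hb, hba⟩
  unfold nxt
  rw [if_neg (hb a.2), dif_pos h1]
  exact ⟨rfl, h1.choose_spec.1, h1.choose_spec.2, h'.2⟩

private theorem cy_arc_nxt [Finite A] (hb : ∀ v, ¬ Br G v) {a : A × A} (h : cyArc G a) :
    cyArc G (nxt G a) := by
  obtain ⟨h1, h2, -, h4⟩ := nxt_core hb h.1 h.2
  refine ⟨h4, ?_⟩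
  rw [h1]
  exact h2

private theorem cy_arc_swap {a : A × A} (h : cyArc G a) : cyArc G (a.2, a.1) :=
  ⟨h.2.2, h.2.1.symm, h.1⟩

theorem nxt_rev [Finite A] (hb : ∀ v, ¬ Br G v) {a : A × A} (h : Cr G a.1)
    (h' : a.2 ∈ cn G a.1) : nxt G ((nxt G a).2, (nxt G a).1) = (a.2, a.1) := by
  obtain ⟨h1, h2, h3, h4⟩ := nxt_core hb h h'
  have ha : cyArc G ((nxt G a).2, (nxt G a).1) := cy_arc_swap (cy_arc_nxt hb ⟨h, h'⟩)
  obtain ⟨k1, k2, k3, -⟩ := nxt_core hb ha.1 ha.2
  simp only at k1 k2 k3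
  have e0 : cn G (nxt G a).1 = cn G a.2 := by rw [h1]
  rw [e0] at k2
  refine Prod.ext (k1.trans h1) ?_
  exact nb_unique (Set.toFinite _) h'.2 (hb _) h2 k2 ⟨h'.1.symm, h⟩ k3 h3.symm

theorem nxt_inj [Finite A] (hb : ∀ v, ¬ Br G v) {a b : A × A} (h : Cr G a.1)
    (h' : a.2 ∈ cn G a.1) (k : Cr G b.1) (k' : b.2 ∈ cn G b.1) (e : nxt G a = nxt G b) : a = b := by
  have h1 := nxt_rev hb h h'
  have h2 := nxt_rev hb k k'
  rw [e, h2] at h1
  have e1 := congrArg Prod.fst h1
  have e2 := congrArg Prod.snd h1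
  exact Prod.ext e2.symm e1.symm

private theorem cy_arc_iter [Finite A] (hb : ∀ v, ¬ Br G v) {a : A × A} (h : cyArc G a) (i : ℕ) :
    cyArc G ((nxt G)^[i] a) := by
  induction i with
  | zero => exact h
  | succ i ih =>
    rw [Function.iterate_succ_apply']
    exact cy_arc_nxt hb ih

private theorem cy_iter_inj [Finite A] (hb : ∀ v, ¬ Br G v) {a b : A × A} (h : cyArc G a)
    (k : cyArc G b) (i : ℕ) (e : (nxt G)^[i] a = (nxt G)^[i] b) : a = b := by
  induction i with
  | zero => exact e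
  | succ i ih =>
    rw [Function.iterate_succ_apply', Function.iterate_succ_apply'] at e
    have h1 := cy_arc_iter hb h i
    have h2 := cy_arc_iter hb k i
    exact ih (nxt_inj hb h1.1 h1.2 h2.1 h2.2 e)

private theorem cy_iter_sub [Finite A] (hb : ∀ v, ¬ Br G v) {a : A × A} (h : cyArc G a) {i j : ℕ}
    (hij : i ≤ j) (e : (nxt G)^[i] a = (nxt G)^[j] a) : (nxt G)^[j - i] a = a := by
  have e1 : (nxt G)^[j] a = (nxt G)^[i] ((nxt G)^[j - i] a) := by
    rw [← Function.iterate_add_apply]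
    congr 1
    omega
  rw [e1] at e
  exact (cy_iter_inj hb h (cy_arc_iter hb h (j - i)) i e).symm

theorem nxt_per [Finite A] (hb : ∀ v, ¬ Br G v) {a : A × A} (h : Cr G a.1)
    (h' : a.2 ∈ cn G a.1) : ∃ m, 0 < m ∧ m ≤ Nat.card (A × A) ∧ (nxt G)^[m] a = a := by
  classical
  have := Fintype.ofFinite A
  have hcard : (Finset.univ : Finset (A × A)).card < (Finset.range (Nat.card (A × A) + 1)).card := by
    rw [Finset.card_range, Finset.card_univ, Nat.card_eq_fintype_card]
    exact Nat.lt_succ_self _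
  obtain ⟨i, hi, j, hj, hij, e⟩ := Finset.exists_ne_map_eq_of_card_lt_of_maps_to hcard
    (f := fun i => (nxt G)^[i] a) (fun i _ => Finset.mem_univ _)
  have hi' := Finset.mem_range.1 hi
  have hj' := Finset.mem_range.1 hj
  rcases lt_or_gt_of_ne hij with hlt | hlt
  · exact ⟨j - i, by omega, by omega, cy_iter_sub hb ⟨h, h'⟩ hlt.le e⟩
  · exact ⟨i - j, by omega, by omega, cy_iter_sub hb ⟨h, h'⟩ hlt.le e.symm⟩

private theorem cy_ne [Finite A] (hb : ∀ v, ¬ Br G v) (i : ℕ) : ∀ a : A × A, cyArc G a →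
    (nxt G)^[i] a ≠ (a.2, a.1) := by
  induction i using Nat.strong_induction_on with
  | _ i ih =>
    intro a ha e
    match i, ih, e with
    | 0, _, e =>
      have e1 : a.1 = a.2 := congrArg Prod.fst e
      exact ha.2.1.ne e1
    | 1, _, e =>
      obtain ⟨-, -, h3, -⟩ := nxt_core hb ha.1 ha.2
      exact h3 (congrArg Prod.snd e)
    | k + 2, ih, e =>
      have hb' := cy_arc_nxt hb ha
      refine ih k (by omega) (nxt G a) hb' ?_
      have h1 := nxt_rev hb ha.1 ha.2
      rw [← e, Function.iterate_succ_apply', Function.iterate_succ_apply] at h1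
      have h2 := cy_arc_iter hb hb' k
      have h3 := cy_arc_swap hb'
      exact (nxt_inj hb h3.1 h3.2 h2.1 h2.2 h1).symm

theorem nxt_ne [Finite A] (hb : ∀ v, ¬ Br G v) {a : A × A} (h : Cr G a.1)
    (h' : a.2 ∈ cn G a.1) (i : ℕ) : (nxt G)^[i] a ≠ (a.2, a.1) :=
  cy_ne hb i a ⟨h, h'⟩

private theorem cy_simul [Finite A] [Finite V] (hπ : Typed G H π) (hb : ∀ v, ¬ Br H v)
    {a : A × A} {b : V × V} (h : cyArc G a) (k : cyArc H b) (s : Sim H b.1 (π a.1))
    (s' : Sim H b.2 (π a.2)) (i : ℕ) :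
    Sim H ((nxt H)^[i] b).1 (π ((nxt G)^[i] a).1) ∧
      Sim H ((nxt H)^[i] b).2 (π ((nxt G)^[i] a).2) := by
  have hbG : ∀ v, ¬ Br G v := fun v hv => hb _ ((br_typed hπ v).1 hv)
  induction i with
  | zero => exact ⟨s, s'⟩
  | succ i ih =>
    rw [Function.iterate_succ_apply', Function.iterate_succ_apply']
    obtain ⟨ih1, ih2⟩ := ih
    have ha := cy_arc_iter hbG h i
    have hk := cy_arc_iter hb k i
    obtain ⟨g1, g2, g3, -⟩ := nxt_core hbG ha.1 ha.2
    obtain ⟨e1, e2, e3, -⟩ := nxt_core hb hk.1 hk.2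
    rw [g1, e1]
    refine ⟨ih2, ?_⟩
    exact sim_symm (other_sim hπ (hbG _) (cy_arc_swap ha).2 g2 g3 (sim_symm ih2)
      (cy_arc_swap hk).2 e2 e3 (sim_symm ih1))

theorem nxt_simul [Finite A] [Finite V] (hπ : Typed G H π) (hb : ∀ v, ¬ Br H v) {p q : A}
    {x y : V} (h : Cr G p) (h' : q ∈ cn G p) (k : Cr H x) (k' : y ∈ cn H x)
    (s : Sim H x (π p)) (s' : Sim H y (π q)) (i : ℕ) :
    Sim H ((nxt H)^[i] (x, y)).1 (π ((nxt G)^[i] (p, q)).1) ∧
      Sim H ((nxt H)^[i] (x, y)).2 (π ((nxt G)^[i] (p, q)).2) :=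
  cy_simul hπ hb (a := (p, q)) (b := (x, y)) ⟨h, h'⟩ ⟨k, k'⟩ s s' i

/-- every core arc has a predecessor -/
private theorem cy_prev [Finite A] (hb : ∀ v, ¬ Br G v) {a : A × A} (h : cyArc G a) :
    ∃ m, 0 < m ∧ (nxt G)^[m] a = a := by
  obtain ⟨m, h1, -, h2⟩ := nxt_per hb h.1 h.2
  exact ⟨m, h1, h2⟩

/-- a walk around a cycle comes back to its tail only by the same arc -/
private theorem cy_noturn [Finite A] (hb : ∀ v, ¬ Br G v) {c : A × A} (h : cyArc G c) (k : ℕ)
    (e : ((nxt G)^[k] c).1 = c.1) : (nxt G)^[k] c = c := by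
  obtain ⟨m, hm, hmc⟩ := cy_prev hb h
  have hp := cy_arc_iter hb h (m - 1)
  have hn : nxt G ((nxt G)^[m - 1] c) = c := by
    rw [← Function.iterate_succ_apply' (nxt G), Nat.succ_eq_add_one, Nat.sub_add_cancel hm]
    exact hmc
  obtain ⟨h1, h2, h3, -⟩ := nxt_core hb hp.1 hp.2
  rw [hn] at h1 h2 h3
  have hd := cy_arc_iter hb h k
  by_contra hne
  have hd2 : ((nxt G)^[k] c).2 ≠ c.2 := fun h4 => hne (Prod.ext e h4)
  have e3 : ((nxt G)^[k] c).2 = ((nxt G)^[m - 1] c).1 := by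
    refine nb_unique (Set.toFinite _) h.1 (hb _) h.2 ?_ ?_ hd2 h3.symm
    · have h5 := hd.2
      rw [e] at h5
      exact h5
    · have h5 := (cy_arc_swap hp).2
      simp only at h5
      rw [← h1] at h5
      exact h5
  refine nxt_ne hb hp.1 hp.2 (k + 1) ?_
  rw [Function.iterate_succ_apply, hn]
  exact Prod.ext (e.trans h1) e3

private theorem cy_wd [Finite A] (hb : ∀ v, ¬ Br G v) {b : A × A} (h : cyArc G b) {x : V × V}
    (hx : ∀ i, (nxt G)^[i] b = b → (nxt H)^[i] x = x) {i j : ℕ}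
    (e : ((nxt G)^[i] b).1 = ((nxt G)^[j] b).1) : (nxt H)^[i] x = (nxt H)^[j] x := by
  have key : ∀ i j : ℕ, i ≤ j → ((nxt G)^[i] b).1 = ((nxt G)^[j] b).1 →
      (nxt H)^[i] x = (nxt H)^[j] x := by
    intro i j hij e
    have e1 : j = (j - i) + i := by omega
    have e2 : (nxt G)^[j] b = (nxt G)^[j - i] ((nxt G)^[i] b) := by
      rw [← Function.iterate_add_apply, ← e1]
    rw [e2] at e
    have h1 := cy_noturn hb (cy_arc_iter hb h i) (j - i) e.symm
    rw [← e2] at h1
    have h2 := cy_iter_sub hb h hij h1.symm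
    have h3 := hx _ h2
    have e4 : (nxt H)^[j] x = (nxt H)^[i] ((nxt H)^[j - i] x) := by
      rw [← Function.iterate_add_apply]
      congr 1
      omega
    rw [e4, h3]
  rcases le_total i j with hij | hij
  · exact key i j hij e
  · exact (key j i hij e.symm).symm

/-- adjacency in the core -/
private def cyR (G : SimpleGraph A) (v w : A) : Prop := G.Adj v w ∧ Cr G v ∧ Cr G w

private theorem cy_symm {v w : A} (h : Relation.ReflTransGen (cyR G) v w) :
    Relation.ReflTransGen (cyR G) w v := by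
  induction h with
  | refl => exact Relation.ReflTransGen.refl
  | tail _ h ih => exact Relation.ReflTransGen.head ⟨h.1.symm, h.2.2, h.2.1⟩ ih

private def cyS (G : SimpleGraph A) : Setoid A where
  r := Relation.ReflTransGen (cyR G)
  iseqv := ⟨fun _ => Relation.ReflTransGen.refl, fun {_ _} h => cy_symm h,
    fun {_ _ _} h h' => h.trans h'⟩

private theorem cy_cr {v w : A} (h : Relation.ReflTransGen (cyR G) v w) (hv : Cr G v) : Cr G w := by
  induction h with
  | refl => exact hv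
  | tail _ h _ => exact h.2.2

private theorem cy_step [Finite A] (hb : ∀ v, ¬ Br G v) {c : A × A} (h : cyArc G c) {w : A}
    (hw : G.Adj c.1 w) (hw' : Cr G w) : ∃ i, ((nxt G)^[i] c).1 = w := by
  by_cases h1 : c.2 = w
  · refine ⟨1, ?_⟩
    rw [Function.iterate_one, (nxt_core hb h.1 h.2).1, h1]
  · obtain ⟨m, hm, hmc⟩ := cy_prev hb h
    have hp := cy_arc_iter hb h (m - 1)
    have hn : nxt G ((nxt G)^[m - 1] c) = c := by
      rw [← Function.iterate_succ_apply' (nxt G), Nat.succ_eq_add_one, Nat.sub_add_cancel hm]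
      exact hmc
    obtain ⟨g1, g2, g3, -⟩ := nxt_core hb hp.1 hp.2
    rw [hn] at g1 g2 g3
    refine ⟨m - 1, ?_⟩
    refine nb_unique (Set.toFinite _) h.1 (hb _) h.2 ?_ ⟨hw, hw'⟩ g3.symm (fun h2 => h1 h2.symm)
    have h5 := (cy_arc_swap hp).2
    simp only at h5
    rw [← g1] at h5
    exact h5

private theorem cy_reach [Finite A] (hb : ∀ v, ¬ Br G v) {v w : A}
    (h : Relation.ReflTransGen (cyR G) v w) {b : A × A} (hba : cyArc G b) (hbv : b.1 = v) :
    ∃ i, ((nxt G)^[i] b).1 = w := by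
  induction h with
  | refl => exact ⟨0, hbv⟩
  | @tail u w _ h2 ih =>
    obtain ⟨i, hi⟩ := ih
    have h3 := cy_arc_iter hb hba i
    obtain ⟨j, hj⟩ := cy_step hb h3 (w := w) (by rw [hi]; exact h2.1) h2.2.2
    refine ⟨j + i, ?_⟩
    rw [Function.iterate_add_apply]
    exact hj

private theorem cy_reach' [Finite A] (hb : ∀ v, ¬ Br G v) {b : A × A} (hba : cyArc G b) (i : ℕ) :
    Relation.ReflTransGen (cyR G) b.1 ((nxt G)^[i] b).1 := by
  induction i with
  | zero => exact Relation.ReflTransGen.refl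
  | succ i ih =>
    refine ih.tail ?_
    have h1 := cy_arc_iter hb hba i
    have h2 := nxt_core hb h1.1 h1.2
    rw [Function.iterate_succ_apply', h2.1]
    exact ⟨h1.2.1, h1.1, h1.2.2⟩

theorem cyc_core [Finite A] [Finite V] (hπ : Typed G H π) (hb : ∀ v, ¬ Br H v)
    (hc : CycOK G H π) : ∃ F₀ : A → V, (∀ v, Cr G v → Sim H (F₀ v) (π v)) ∧
      ∀ v, Cr G v → Set.BijOn F₀ (cn G v) (cn H (F₀ v)) := by
  classical
  have hbG : ∀ v, ¬ Br G v := fun v hv => hb _ ((br_typed hπ v).1 hv)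
  -- the representatives
  obtain ⟨rep, hrep1, hrep2⟩ : ∃ rep : A → A,
      (∀ v, Relation.ReflTransGen (cyR G) (rep v) v) ∧
      ∀ v w, Relation.ReflTransGen (cyR G) v w → rep v = rep w := by
    refine ⟨fun v => (Quotient.mk (cyS G) v).out, fun v => Quotient.exact (s := cyS G) ?_,
      fun v w h => ?_⟩
    · exact Quotient.out_eq _
    · have e : Quotient.mk (cyS G) v = Quotient.mk (cyS G) w := Quotient.sound (s := cyS G) h
      exact congrArg Quotient.out e
  have hcr : ∀ v, Cr G v → Cr G (rep v) := fun v hv =>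
    cy_cr (cy_symm (hrep1 v)) hv
  have hnb : ∀ u, ∃ t, Cr G u → t ∈ cn G u := by
    intro u
    by_cases hu : Cr G u
    · obtain ⟨a, ha, -⟩ := cr_two hu
      exact ⟨a, fun _ => ha⟩
    · exact ⟨u, fun h => absurd h hu⟩
  choose nb hnb' using hnb
  have hxy : ∀ u, ∃ x : V × V, Cr G u → cyArc H x ∧ Sim H x.1 (π u) ∧ Sim H x.2 (π (nb u)) ∧
      ∀ i, (nxt G)^[i] (u, nb u) = (u, nb u) → (nxt H)^[i] x = x := by
    intro u
    by_cases hu : Cr G u
    · obtain ⟨x, y, h1, h2, h3, h4, h5⟩ := hc u (nb u) hu (hnb' u hu)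
      exact ⟨(x, y), fun _ => ⟨⟨h1, h2⟩, h3, h4, h5⟩⟩
    · exact ⟨(π u, π u), fun h => absurd h hu⟩
  choose X hX using hxy
  have harc : ∀ v, Cr G v → cyArc G (rep v, nb (rep v)) := fun v hv =>
    ⟨hcr v hv, hnb' _ (hcr v hv)⟩
  have hidx : ∀ v, ∃ i, Cr G v → ((nxt G)^[i] (rep v, nb (rep v))).1 = v := by
    intro v
    by_cases hv : Cr G v
    · obtain ⟨i, hi⟩ := cy_reach hbG (hrep1 v) (harc v hv) rfl
      exact ⟨i, fun _ => hi⟩
    · exact ⟨0, fun h => absurd h hv⟩
  choose I hI using hidx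
  obtain ⟨F, hF⟩ : ∃ F : A → V, ∀ v, F v = ((nxt H)^[I v] (X (rep v))).1 := ⟨_, fun _ => rfl⟩
  have hFL : ∀ v, Cr G v → ∀ k, F ((nxt G)^[k] (rep v, nb (rep v))).1 =
      ((nxt H)^[k] (X (rep v))).1 := by
    intro v hv k
    obtain ⟨w, hw⟩ : ∃ w, w = ((nxt G)^[k] (rep v, nb (rep v))).1 := ⟨_, rfl⟩
    rw [← hw, hF]
    have h1 : Relation.ReflTransGen (cyR G) (rep v) w := by
      rw [hw]
      exact cy_reach' hbG (harc v hv) k
    have hwc : Cr G w := cy_cr h1 (hcr v hv)
    have h2 : rep w = rep v := by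
      rw [← hrep2 _ _ h1]
      exact hrep2 _ _ (hrep1 v)
    have h3 := hI w hwc
    rw [h2] at h3 ⊢
    rw [cy_wd hbG (harc v hv) (hX (rep v) (hcr v hv)).2.2.2 (i := I w) (j := k) (h3.trans hw)]
  refine ⟨F, ?_, ?_⟩
  · intro v hv
    have h1 := hX (rep v) (hcr v hv)
    have h2 := cy_simul hπ hb (harc v hv) h1.1 h1.2.1 h1.2.2.1 (I v)
    rw [hI v hv] at h2
    rw [hF]
    exact h2.1
  · intro v hv
    obtain ⟨b, hbd⟩ : ∃ b, b = (rep v, nb (rep v)) := ⟨_, rfl⟩
    obtain ⟨x, hxd⟩ : ∃ x, x = X (rep v) := ⟨_, rfl⟩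
    have hba : cyArc G b := hbd ▸ harc v hv
    have hFL' := hFL v hv
    have hXv := hX (rep v) (hcr v hv)
    rw [← hbd, ← hxd] at hFL' hXv
    obtain ⟨m, hm, hmb⟩ := cy_prev hbG hba
    have hmx := hXv.2.2.2 m hmb
    have hi := hI v hv
    rw [← hbd] at hi
    -- the arcs at `v`
    have hjs : ∀ {B : Type} (f : B → B) (b : B), f^[m] b = b →
        f (f^[I v + (m - 1)] b) = f^[I v] b := by
      intro B f b h
      rw [← Function.iterate_succ_apply' f, show Nat.succ (I v + (m - 1)) = I v + m by omega,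
        Function.iterate_add_apply, h]
    have e1 := hjs (nxt G) b hmb
    have e2 := hjs (nxt H) x hmx
    have hc1 := cy_arc_iter hbG hba (I v)
    have hp1 := cy_arc_iter hbG hba (I v + (m - 1))
    have hc2 := cy_arc_iter hb hXv.1 (I v)
    have hp2 := cy_arc_iter hb hXv.1 (I v + (m - 1))
    obtain ⟨g1, g2, g3, -⟩ := nxt_core hbG hp1.1 hp1.2
    obtain ⟨k1, k2, k3, -⟩ := nxt_core hb hp2.1 hp2.2
    rw [e1] at g1 g2 g3
    rw [e2] at k1 k2 k3
    have hFv : F v = ((nxt H)^[I v] x).1 := by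
      have h1 := hFL' (I v)
      rw [hi] at h1
      exact h1
    have hFu : F ((nxt G)^[I v] b).2 = ((nxt H)^[I v] x).2 := by
      have h1 := hFL' (I v + 1)
      rw [Function.iterate_succ_apply', Function.iterate_succ_apply',
        (nxt_core hbG hc1.1 hc1.2).1, (nxt_core hb hc2.1 hc2.2).1] at h1
      exact h1
    have hFu' : F ((nxt G)^[I v + (m - 1)] b).1 = ((nxt H)^[I v + (m - 1)] x).1 := hFL' _
    have m1 : ((nxt G)^[I v] b).2 ∈ cn G v := by
      have h1 := hc1.2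
      rw [hi] at h1
      exact h1
    have m2 : ((nxt G)^[I v + (m - 1)] b).1 ∈ cn G v := by
      have h1 := (cy_arc_swap hp1).2
      simp only at h1
      rw [← g1, hi] at h1
      exact h1
    have n1 : ((nxt H)^[I v] x).2 ∈ cn H (F v) := by
      rw [hFv]
      exact hc2.2
    have n2 : ((nxt H)^[I v + (m - 1)] x).1 ∈ cn H (F v) := by
      have h1 := (cy_arc_swap hp2).2
      simp only at h1
      rw [← k1] at h1
      rw [hFv]
      exact h1
    have hall : ∀ w ∈ cn G v, w = ((nxt G)^[I v] b).2 ∨ w = ((nxt G)^[I v + (m - 1)] b).1 := by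
      intro w hw
      by_cases h1 : w = ((nxt G)^[I v] b).2
      · exact Or.inl h1
      · exact Or.inr (nb_unique (Set.toFinite _) hv (hbG _) m1 hw m2 h1 g3.symm)
    have hcF : Cr H (F v) := by
      rw [hFv]
      exact hc2.1
    have hall' : ∀ w ∈ cn H (F v), w = ((nxt H)^[I v] x).2 ∨
        w = ((nxt H)^[I v + (m - 1)] x).1 := by
      intro w hw
      by_cases h1 : w = ((nxt H)^[I v] x).2
      · exact Or.inl h1
      · exact Or.inr (nb_unique (Set.toFinite _) hcF (hb _) n1 hw n2 h1 k3.symm)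
    refine ⟨?_, ?_, ?_⟩
    · intro w hw
      rcases hall w hw with rfl | rfl
      · rw [hFu]
        exact n1
      · rw [hFu']
        exact n2
    · intro w hw w' hw' e
      rcases hall w hw with h1 | h1 <;> rcases hall w' hw' with h2 | h2
      · rw [h1, h2]
      · rw [h1, h2, hFu, hFu'] at e
        exact absurd e k3
      · rw [h1, h2, hFu, hFu'] at e
        exact absurd e.symm k3
      · rw [h1, h2]
    · intro w hw
      rcases hall' w hw with rfl | rfl
      · exact ⟨_, m1, hFu⟩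
      · exact ⟨_, m2, hFu'⟩

theorem cyc_nec [Finite A] [Finite V] (hb : ∀ v, ¬ Br H v) {F : A → V} (hF : IsCover G H F)
    (hs : ∀ a, Sim H (F a) (π a)) : CycOK G H π := by
  have hbG : ∀ v, ¬ Br G v := fun v hv => hb _ ((br_typed (typed_cover hF) v).1 hv)
  intro p q hp hq
  have hmem : ∀ {v w : A}, w ∈ cn G v → F w ∈ cn H (F v) := fun {v w} h =>
    ⟨(hF v).mapsTo h.1, (cr_of_cover hF w).1 h.2⟩
  have hit : ∀ i, (nxt H)^[i] (F p, F q) =
      (F ((nxt G)^[i] (p, q)).1, F ((nxt G)^[i] (p, q)).2) := by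
    intro i
    induction i with
    | zero => rfl
    | succ i ih =>
      rw [Function.iterate_succ_apply', Function.iterate_succ_apply', ih]
      have ha : cyArc G ((nxt G)^[i] (p, q)) := cy_arc_iter hbG (a := (p, q)) ⟨hp, hq⟩ i
      obtain ⟨g1, g2, g3, -⟩ := nxt_core hbG ha.1 ha.2
      have hk : cyArc H (F ((nxt G)^[i] (p, q)).1, F ((nxt G)^[i] (p, q)).2) :=
        ⟨(cr_of_cover hF _).1 ha.1, hmem ha.2⟩
      obtain ⟨k1, k2, k3, -⟩ := nxt_core hb hk.1 hk.2
      rw [g1]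
      refine Prod.ext k1 ?_
      refine nb_unique (Set.toFinite _) hk.2.2 (hb _) (cy_arc_swap hk).2 k2 (hmem g2) k3 ?_
      intro e
      exact g3 ((hF _).injOn g2.1 (cy_arc_swap ha).2.1 e)
  refine ⟨F p, F q, (cr_of_cover hF p).1 hp, hmem hq, hs p, hs q, ?_⟩
  intro i hi
  rw [hit, hi]

end Pool.Agent.H24.GJ
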