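import Pool.Agent.H24.GG.Up3
import Pool.Agent.H24.GJ.CycIff

/-!
# JOB GJ-4: connected graphs without a branch vertex: polynomial time

`nxB` (file `Pool.Agent.H24.GG.Up2`) is the next arc of the graph, `nxHt` the next arc of `H` (a table). `cycS`: a step of both, and
the check that the arc of `H` has returned to the start `b₀` whenever the arc of `G` has returned to `a₀`. `cycC`: the check of
`CycOK`.

`nxHt_eq`: `rows_getD_ofFn` twice. `cycI_eq`: `cycS^[k] (a₀, b₀, true) = (nxt G ^[k] a₀, nxt H ^[k] b₀, o)` with `o = true` iff for all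
`1 ≤ i ≤ k`: `nxt G ^[i] a₀ = a₀ → nxt H ^[i] b₀ = b₀` (induction; `nxB_eq`, `nxt_core`).
`cycC_iff`: `CycOK` for all `i` follows from `i ≤ N * N`: let `m ≤ N * N`, `0 < m`, be the smallest period of `(p, q)` (`nxt_per`,
`Function.minimalPeriod` or `Nat.find`); then `nxt H ^[m]` fixes `(x, y)`, and every `i` with `nxt G ^[i]` fixing `(p, q)` is a multiple of
`m` (`Function.IsPeriodicPt`), so `nxt H ^[i]` fixes `(x, y)`.
`PT.cycC'`: as `PT.cU'` (file `Up2`); for the iteration: `PT.iterate` (file `Pool.Agent.PPS.Toolkit`): the numbers in the state are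
bounded by the sum of the start values, `N` and `n` (`nxB`: the second component is in `List.range N` or `0`, or the arc is unchanged).
`lb_mem_P`: as `red_up` (file `Up3`): `LB H = {x | (up3_c H r x && cycC ..) = true}`; `mem_P_iff'` (file `Pool.Agent.PPS.Cycle`);
`up3_check`, `mchkG_spec`, `tyC_iff`, `tyC_lk`, `nb_cov_iff`, `cycC_iff`.
-/

namespace Pool.Agent.H24.GJ

open Pool.Agent.H24.GC Pool.Agent.H24.GE Pool.Agent.H24.GG Pool.Agent.PPS Pool.Agent.H64.Cook
  Pool.Agent.H79.Thr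

variable {n : ℕ}

/-- the next arc of `H` -/
noncomputable def nxHt (H : SimpleGraph (Fin n)) (a : ℕ × ℕ) : ℕ × ℕ :=
  ((List.ofFn fun u : Fin n => List.ofFn fun v : Fin n =>
    (((nxt H (u, v)).1 : ℕ), ((nxt H (u, v)).2 : ℕ))).getD a.1 []).getD a.2 (0, 0)

/-- a step -/
noncomputable def cycS (H : SimpleGraph (Fin n)) (N : ℕ) (x : List Bool) (T : List (List Bool))
    (a₀ b₀ : ℕ × ℕ) (s : (ℕ × ℕ) × ((ℕ × ℕ) × Bool)) : (ℕ × ℕ) × ((ℕ × ℕ) × Bool) :=
  (nxB H N x T s.1, (nxHt H s.2.1, s.2.2 && (!decide (nxB H N x T s.1 = a₀) ||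
    decide (nxHt H s.2.1 = b₀))))

/-- the check for a pair of arcs -/
noncomputable def cycB (H : SimpleGraph (Fin n)) (N : ℕ) (x : List Bool) (T : List (List Bool))
    (a₀ b₀ : ℕ × ℕ) : Bool :=
  ((cycS H N x T a₀ b₀)^[N * N] (a₀, (b₀, true))).2.2

/-- the check of the cycles -/
noncomputable def cycC (H : SimpleGraph (Fin n)) (N : ℕ) (x : List Bool) (T : List (List Bool)) :
    Bool :=
  (List.range N).all fun p => (List.range N).all fun q =>
    !(b1 (Cr H) (lk n T p) && (b1 (Cr H) (lk n T q) && ment x N p q)) ||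
      (List.range n).any fun u => (List.range n).any fun v =>
        b1 (Cr H) u && (b2 (fun x y => y ∈ cn H x) u v && (b2 (Sim H) u (lk n T p) &&
          (b2 (Sim H) v (lk n T q) && cycB H N x T (p, q) (u, v))))

theorem nxHt_eq (H : SimpleGraph (Fin n)) (u v : Fin n) : nxHt H ((u : ℕ), (v : ℕ)) =
    (((nxt H (u, v)).1 : ℕ), ((nxt H (u, v)).2 : ℕ)) := by
  unfold nxHt
  rw [rows_getD_ofFn, rows_getD_ofFn]

private theorem cyp_nb {A V : Type} [Finite V] {G : SimpleGraph A} {H : SimpleGraph V} {t : A → V}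
    (hty : Typed G H t) (hb : ∀ v, ¬ Br H v) : ∀ v, ¬ Br G v := fun v h =>
  hb _ ((br_typed hty v).1 h)

private theorem cyp_arc {A : Type} [Finite A] {G : SimpleGraph A} (hb : ∀ v, ¬ Br G v)
    {a : A × A} (h : Cr G a.1) (h' : a.2 ∈ cn G a.1) (k : ℕ) :
    Cr G ((nxt G)^[k] a).1 ∧ ((nxt G)^[k] a).2 ∈ cn G ((nxt G)^[k] a).1 := by
  induction k with
  | zero => exact ⟨h, h'⟩
  | succ k ih =>
    obtain ⟨h1, h2, -, h4⟩ := nxt_core hb ih.1 ih.2
    rw [Function.iterate_succ_apply']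
    refine ⟨h4, ?_⟩
    rw [h1]
    exact h2

variable {N : ℕ} {G : SimpleGraph (Fin N)} {H : SimpleGraph (Fin n)} {T : List (List Bool)}
  {t : Fin N → Fin n}

private theorem cyp_iter (ht : ∀ i, (t i : ℕ) = lk n T i) (hty : Typed G H t)
    (hb : ∀ v, ¬ Br H v) {p q : Fin N} (hp : Cr G p) (hq : q ∈ cn G p) {u v : Fin n}
    (hu : Cr H u) (hv : v ∈ cn H u) (k : ℕ) :
    (((cycS H N (enc G) T ((p : ℕ), (q : ℕ)) ((u : ℕ), (v : ℕ)))^[k]
      (((p : ℕ), (q : ℕ)), (((u : ℕ), (v : ℕ)), true))).1 =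
        ((((nxt G)^[k] (p, q)).1 : ℕ), (((nxt G)^[k] (p, q)).2 : ℕ))) ∧
    (((cycS H N (enc G) T ((p : ℕ), (q : ℕ)) ((u : ℕ), (v : ℕ)))^[k]
      (((p : ℕ), (q : ℕ)), (((u : ℕ), (v : ℕ)), true))).2.1 =
        ((((nxt H)^[k] (u, v)).1 : ℕ), (((nxt H)^[k] (u, v)).2 : ℕ))) ∧
    (((cycS H N (enc G) T ((p : ℕ), (q : ℕ)) ((u : ℕ), (v : ℕ)))^[k]
      (((p : ℕ), (q : ℕ)), (((u : ℕ), (v : ℕ)), true))).2.2 = true ↔
        ∀ i, 1 ≤ i → i ≤ k → (nxt G)^[i] (p, q) = (p, q) → (nxt H)^[i] (u, v) = (u, v)) := by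
  have hbG := cyp_nb hty hb
  have hpe : ∀ {m : ℕ} (a : Fin m × Fin m) (b c : Fin m),
      (((a.1 : ℕ), (a.2 : ℕ)) = ((b : ℕ), (c : ℕ))) ↔ a = (b, c) := by
    intro m a b c
    constructor
    · intro h
      exact Prod.ext (Fin.ext (congrArg Prod.fst h)) (Fin.ext (congrArg Prod.snd h))
    · rintro rfl
      rfl
  induction k with
  | zero =>
    refine ⟨rfl, rfl, ?_⟩
    constructor
    · intro _ i h1 h2
      omega
    · intro _
      rfl
  | succ k ih =>
    obtain ⟨h1, h2, h3⟩ := ih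
    obtain ⟨h4, h5⟩ := cyp_arc hbG (a := (p, q)) hp hq k
    rw [Function.iterate_succ_apply']
    generalize (cycS H N (enc G) T ((p : ℕ), (q : ℕ)) ((u : ℕ), (v : ℕ)))^[k]
      (((p : ℕ), (q : ℕ)), (((u : ℕ), (v : ℕ)), true)) = s at h1 h2 h3 ⊢
    have e1 : nxB H N (enc G) T s.1 = ((((nxt G)^[k + 1] (p, q)).1 : ℕ),
        (((nxt G)^[k + 1] (p, q)).2 : ℕ)) := by
      rw [h1, nxB_eq ht hty h4 h5, Function.iterate_succ_apply']
    have e2 : nxHt H s.2.1 = ((((nxt H)^[k + 1] (u, v)).1 : ℕ),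
        (((nxt H)^[k + 1] (u, v)).2 : ℕ)) := by
      rw [h2, nxHt_eq, Function.iterate_succ_apply']
    refine ⟨e1, e2, ?_⟩
    show (s.2.2 && (!decide (nxB H N (enc G) T s.1 = ((p : ℕ), (q : ℕ))) ||
      decide (nxHt H s.2.1 = ((u : ℕ), (v : ℕ))))) = true ↔ _
    rw [e1, e2, Bool.and_eq_true, h3, Bool.or_eq_true, Bool.not_eq_true', decide_eq_false_iff_not,
      decide_eq_true_eq, hpe, hpe]
    constructor
    · rintro ⟨ha, hb'⟩ i hi hik hG
      rcases Nat.lt_or_ge i (k + 1) with hlt | hge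
      · exact ha i hi (by omega) hG
      · have hie : i = k + 1 := by omega
        subst hie
        rcases hb' with hb' | hb'
        · exact absurd hG hb'
        · exact hb'
    · intro h
      refine ⟨fun i hi hik => h i hi (by omega), ?_⟩
      by_cases hG : (nxt G)^[k + 1] (p, q) = (p, q)
      · exact Or.inr (h (k + 1) (by omega) le_rfl hG)
      · exact Or.inl hG

theorem cycB_iff (ht : ∀ i, (t i : ℕ) = lk n T i) (hty : Typed G H t) (hb : ∀ v, ¬ Br H v)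
    {p q : Fin N} (hp : Cr G p) (hq : q ∈ cn G p) {u v : Fin n} (hu : Cr H u) (hv : v ∈ cn H u) :
    cycB H N (enc G) T ((p : ℕ), (q : ℕ)) ((u : ℕ), (v : ℕ)) = true ↔
      ∀ i, (nxt G)^[i] (p, q) = (p, q) → (nxt H)^[i] (u, v) = (u, v) := by
  have hbG := cyp_nb hty hb
  have key := cyp_iter ht hty hb hp hq hu hv (N * N)
  have h1 : cycB H N (enc G) T ((p : ℕ), (q : ℕ)) ((u : ℕ), (v : ℕ)) = true ↔
      ∀ i, 1 ≤ i → i ≤ N * N → (nxt G)^[i] (p, q) = (p, q) → (nxt H)^[i] (u, v) = (u, v) :=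
    key.2.2
  rw [h1]
  constructor
  · intro h i hi
    obtain ⟨m, hm0, hm, hmp⟩ := nxt_per hbG (a := (p, q)) hp hq
    have hm' : m ≤ N * N := by
      refine hm.trans (le_of_eq ?_)
      rw [Nat.card_prod, Nat.card_fin]
    have hpm : Function.IsPeriodicPt (nxt G) m (p, q) := hmp
    have h2 : 0 < Function.minimalPeriod (nxt G) (p, q) := hpm.minimalPeriod_pos hm0
    have h3 : Function.minimalPeriod (nxt G) (p, q) ≤ m := hpm.minimalPeriod_le hm0
    have h4 := h _ h2 (h3.trans hm') (Function.iterate_minimalPeriod)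
    have h5 : Function.IsPeriodicPt (nxt H) (Function.minimalPeriod (nxt G) (p, q)) (u, v) := h4
    have h6 : Function.IsPeriodicPt (nxt G) i (p, q) := hi
    obtain ⟨c, hc⟩ := h6.minimalPeriod_dvd
    rw [hc]
    exact h5.mul_const c
  · intro h i _ _ hi
    exact h i hi

theorem cycC_iff (ht : ∀ i, (t i : ℕ) = lk n T i) (hty : Typed G H t) (hb : ∀ v, ¬ Br H v) :
    cycC H N (enc G) T = true ↔ CycOK G H t := by
  have b1t : ∀ (P : Fin n → Prop) (i : Fin N), b1 P (lk n T i) = true ↔ P (t i) := by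
    intro P i
    rw [← ht i]
    exact b1_iff P (t i)
  have b2t : ∀ (P : Fin n → Fin n → Prop) (u : Fin n) (i : Fin N),
      b2 P u (lk n T i) = true ↔ P u (t i) := by
    intro P u i
    rw [← ht i]
    exact b2_iff P u (t i)
  have hcond : ∀ p q : Fin N, (b1 (Cr H) (lk n T p) && (b1 (Cr H) (lk n T q) &&
      ment (enc G) N p q)) = true ↔ Cr G p ∧ q ∈ cn G p := by
    intro p q
    rw [Bool.and_eq_true, Bool.and_eq_true, b1t, b1t, ment_enc, ← cr_typed hty p,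
      ← cr_typed hty q]
    exact ⟨fun h => ⟨h.1, h.2.2, h.2.1⟩, fun h => ⟨h.1, h.2.2, h.2.1⟩⟩
  have hin : ∀ p q : Fin N, Cr G p → q ∈ cn G p → (((List.range n).any fun u =>
      (List.range n).any fun v =>
        b1 (Cr H) u && (b2 (fun x y => y ∈ cn H x) u v && (b2 (Sim H) u (lk n T p) &&
          (b2 (Sim H) v (lk n T q) && cycB H N (enc G) T ((p : ℕ), (q : ℕ)) (u, v))))) = true ↔
      ∃ x y, Cr H x ∧ y ∈ cn H x ∧ Sim H x (t p) ∧ Sim H y (t q) ∧
        ∀ i, (nxt G)^[i] (p, q) = (p, q) → (nxt H)^[i] (x, y) = (x, y)) := by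
    intro p q hp hq
    rw [List.any_eq_true]
    constructor
    · rintro ⟨u, hu, h⟩
      rw [List.mem_range] at hu
      obtain ⟨u, rfl⟩ : ∃ w : Fin n, (w : ℕ) = u := ⟨⟨u, hu⟩, rfl⟩
      rw [List.any_eq_true] at h
      obtain ⟨v, hv, h⟩ := h
      rw [List.mem_range] at hv
      obtain ⟨v, rfl⟩ : ∃ w : Fin n, (w : ℕ) = v := ⟨⟨v, hv⟩, rfl⟩
      rw [Bool.and_eq_true, Bool.and_eq_true, Bool.and_eq_true, Bool.and_eq_true, b1_iff, b2_iff,
        b2t, b2t] at h
      obtain ⟨h1, h2, h3, h4, h5⟩ := h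
      exact ⟨u, v, h1, h2, h3, h4, (cycB_iff ht hty hb hp hq h1 h2).1 h5⟩
    · rintro ⟨x, y, h1, h2, h3, h4, h5⟩
      refine ⟨x, List.mem_range.2 x.2, ?_⟩
      rw [List.any_eq_true]
      refine ⟨y, List.mem_range.2 y.2, ?_⟩
      rw [Bool.and_eq_true, Bool.and_eq_true, Bool.and_eq_true, Bool.and_eq_true, b1_iff, b2_iff,
        b2t, b2t]
      exact ⟨h1, h2, h3, h4, (cycB_iff ht hty hb hp hq h1 h2).2 h5⟩
  unfold cycC CycOK
  rw [List.all_eq_true]
  constructor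
  · intro h p q hp hq
    have h1 := h p (List.mem_range.2 p.2)
    rw [List.all_eq_true] at h1
    have h2 := h1 q (List.mem_range.2 q.2)
    rw [(hcond p q).2 ⟨hp, hq⟩, Bool.not_true, Bool.false_or] at h2
    exact (hin p q hp hq).1 h2
  · intro h p hp
    rw [List.mem_range] at hp
    obtain ⟨p, rfl⟩ : ∃ w : Fin N, (w : ℕ) = p := ⟨⟨p, hp⟩, rfl⟩
    rw [List.all_eq_true]
    intro q hq
    rw [List.mem_range] at hq
    obtain ⟨q, rfl⟩ : ∃ w : Fin N, (w : ℕ) = q := ⟨⟨q, hq⟩, rfl⟩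
    rw [Bool.or_eq_true, Bool.not_eq_true']
    by_cases hc : Cr G p ∧ q ∈ cn G p
    · exact Or.inr ((hin p q hc.1 hc.2).2 (h p q hc.1 hc.2))
    · exact Or.inl (Bool.eq_false_iff.2 fun h' => hc ((hcond p q).1 h'))

@[fun_prop]
private theorem cyp_pb1 {m : Bool} {α : Type} [Rep α] (p : Fin n → Prop) {a : α → ℕ}
    (ha : PT m a) : PT m (fun z => b1 p (a z)) := by
  unfold b1
  exact PT.getD' ha (PT.const' _) (PT.const' false)

@[fun_prop]
private theorem cyp_pb2 {m : Bool} {α : Type} [Rep α] (p : Fin n → Fin n → Prop) {a b : α → ℕ}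
    (ha : PT m a) (hb : PT m b) : PT m (fun z => b2 p (a z) (b z)) := by
  unfold b2
  exact PT.getD' hb (PT.getD' ha (PT.const' _) (PT.const' [])) (PT.const' false)

@[fun_prop]
private theorem cyp_pnb {m : Bool} {α : Type} [Rep α] (H : SimpleGraph (Fin n)) {N i : α → ℕ}
    {x : α → List Bool} {T : α → List (List Bool)} (hN : PT m N) (hx : PT m x) (hT : PT m T)
    (hi : PT m i) : PT m (fun a => nbB H (N a) (x a) (T a) (i a)) := by
  unfold nbB
  exact H64.Cook.PT.filter' (m := m) (l := fun a => List.range (N a))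
    (f := fun z : α × ℕ => ment (x z.1) (N z.1) (i z.1) z.2 && b1 (Cr H) (lk n (T z.1) z.2))
    (by fun_prop) (by fun_prop)

@[fun_prop]
private theorem cyp_pnx {m : Bool} {α : Type} [Rep α] (H : SimpleGraph (Fin n)) {N : α → ℕ}
    {i : α → ℕ × ℕ} {x : α → List Bool} {T : α → List (List Bool)} (hN : PT m N) (hx : PT m x)
    (hT : PT m T) (hi : PT m i) : PT m (fun a => nxB H (N a) (x a) (T a) (i a)) := by
  unfold nxB
  have h := H64.Cook.PT.filter' (m := m) (l := fun a => nbB H (N a) (x a) (T a) (i a).2)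
    (f := fun z : α × ℕ => !decide (z.2 = (i z.1).1)) (by fun_prop) (by fun_prop)
  fun_prop

@[fun_prop]
private theorem cyp_pnH {m : Bool} {α : Type} [Rep α] (H : SimpleGraph (Fin n))
    {b : α → ℕ × ℕ} (hb : PT m b) : PT m (fun a => nxHt H (b a)) := by
  unfold nxHt
  exact PT.getD' (PT.comp' (by fun_prop) hb) (PT.getD' (by fun_prop) (PT.const' _) (PT.const' []))
    (PT.const' (0, 0))

private theorem cyp_bd (H : SimpleGraph (Fin n)) (N : ℕ) (x : List Bool) (T : List (List Bool))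
    (a₀ b₀ : ℕ × ℕ) (c : ℕ) (hN : N ≤ c) (hn : n ≤ c) (s : (ℕ × ℕ) × ((ℕ × ℕ) × Bool))
    (hs : s.1.1 ≤ c ∧ s.1.2 ≤ c ∧ s.2.1.1 ≤ c ∧ s.2.1.2 ≤ c) (k : ℕ) :
    ((cycS H N x T a₀ b₀)^[k] s).1.1 ≤ c ∧ ((cycS H N x T a₀ b₀)^[k] s).1.2 ≤ c ∧
      ((cycS H N x T a₀ b₀)^[k] s).2.1.1 ≤ c ∧ ((cycS H N x T a₀ b₀)^[k] s).2.1.2 ≤ c := by
  have hx : ∀ a : ℕ × ℕ, a.1 ≤ c → a.2 ≤ c → (nxB H N x T a).1 ≤ c ∧ (nxB H N x T a).2 ≤ c := by
    intro a h1 h2
    unfold nxB
    cases b1 (Br H) (lk n T a.2)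
    · refine ⟨h2, ?_⟩
      show List.headD _ 0 ≤ c
      rcases hl : (nbB H N x T a.2).filter (fun t => !decide (t = a.1)) with _ | ⟨b, l⟩
      · exact Nat.zero_le _
      · have hb : b ∈ (nbB H N x T a.2).filter (fun t => !decide (t = a.1)) := by
          rw [hl]
          exact List.mem_cons_self
        rw [List.mem_filter] at hb
        have hb' := hb.1
        unfold nbB at hb'
        rw [List.mem_filter, List.mem_range] at hb'
        show b ≤ c
        omega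
    · exact ⟨h1, h2⟩
  have hy : ∀ b : ℕ × ℕ, (nxHt H b).1 ≤ c ∧ (nxHt H b).2 ≤ c := by
    intro b
    unfold nxHt
    rcases Nat.lt_or_ge b.1 n with h1 | h1
    · obtain ⟨u, hu⟩ : ∃ w : Fin n, (w : ℕ) = b.1 := ⟨⟨b.1, h1⟩, rfl⟩
      rw [← hu, rows_getD_ofFn]
      rcases Nat.lt_or_ge b.2 n with h2 | h2
      · obtain ⟨v, hv⟩ : ∃ w : Fin n, (w : ℕ) = b.2 := ⟨⟨b.2, h2⟩, rfl⟩
        rw [← hv, rows_getD_ofFn]
        exact ⟨(nxt H (u, v)).1.2.le.trans hn, (nxt H (u, v)).2.2.le.trans hn⟩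
      · rw [List.getD_eq_default _ _ (by rw [List.length_ofFn]; exact h2)]
        exact ⟨Nat.zero_le _, Nat.zero_le _⟩
    · rw [List.getD_eq_default (d := []) _ (by rw [List.length_ofFn]; exact h1)]
      exact ⟨Nat.zero_le _, Nat.zero_le _⟩
  induction k with
  | zero => exact hs
  | succ k ih =>
    rw [Function.iterate_succ_apply']
    generalize (cycS H N x T a₀ b₀)^[k] s = s' at ih ⊢
    exact ⟨(hx _ ih.1 ih.2.1).1, (hx _ ih.1 ih.2.1).2, (hy _).1, (hy _).2⟩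

theorem PT.cycB' {m : Bool} {α : Type} [Rep α] (H : SimpleGraph (Fin n)) {N : α → ℕ}
    {x : α → List Bool} {T : α → List (List Bool)} {a₀ b₀ : α → ℕ × ℕ} (hN : PT m N)
    (hx : PT m x) (hT : PT m T) (ha : PT m a₀) (hb : PT m b₀) :
    PT m (fun a => cycB H (N a) (x a) (T a) (a₀ a) (b₀ a)) := by
  obtain ⟨pa, hpa⟩ := ha.exists_size_le
  obtain ⟨pb, hpb⟩ := hb.exists_size_le
  obtain ⟨pN, hpN⟩ := hN.exists_size_le
  have hs : PT m (fun z : α × ((ℕ × ℕ) × ((ℕ × ℕ) × Bool)) =>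
      cycS H (N z.1) (x z.1) (T z.1) (a₀ z.1) (b₀ z.1) z.2) := by
    unfold cycS
    fun_prop
  have hi : PT m (fun a => (a₀ a, (b₀ a, true))) := by fun_prop
  have h := PT.iterate (m := m) (n := fun a => N a * N a)
    (ini := fun a => (a₀ a, (b₀ a, true)))
    (s := fun z : α × ((ℕ × ℕ) × ((ℕ × ℕ) × Bool)) =>
      cycS H (N z.1) (x z.1) (T z.1) (a₀ z.1) (b₀ z.1) z.2) (by fun_prop) hi hs
    (8 * (2 * pa + 2 * pb + pN + (n : Polynomial ℕ)) + 20) (by
      intro a k _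
      have h1 := cyp_bd H (N a) (x a) (T a) (a₀ a) (b₀ a)
        ((a₀ a).1 + (a₀ a).2 + (b₀ a).1 + (b₀ a).2 + N a + n) (by omega) (by omega)
        (a₀ a, (b₀ a, true)) ⟨by simp only; omega, by simp only; omega, by simp only; omega,
          by simp only; omega⟩ k
      have h2 := hpa a
      have h3 := hpb a
      have h4 := hpN a
      rw [size_pair, size_nat, size_nat] at h2 h3
      rw [size_nat] at h4
      simp only
      generalize (fun y => cycS H (N a) (x a) (T a) (a₀ a) (b₀ a) y)^[k] (a₀ a, (b₀ a, true)) = s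
        at h1 ⊢
      obtain ⟨h5, h6, h7, h8⟩ := h1
      have h9 := size_bool_le s.2.2
      have e : size s = size s.1.1 + size s.1.2 + 1 + (size s.2.1.1 + size s.2.1.2 + 1 +
          size s.2.2 + 1) + 1 := by
        obtain ⟨⟨s1, s2⟩, ⟨⟨s3, s4⟩, s5⟩⟩ := s
        simp only [size_pair]
      rw [e, size_nat, size_nat, size_nat, size_nat]
      simp only [Polynomial.eval_add, Polynomial.eval_mul, Polynomial.eval_ofNat,
        Polynomial.eval_natCast, Nat.cast_id]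
      omega)
  have h' := PT.comp (m := m)
    (f := fun a => (fun y => cycS H (N a) (x a) (T a) (a₀ a) (b₀ a) y)^[N a * N a]
      (a₀ a, (b₀ a, true)))
    (g := fun s : (ℕ × ℕ) × ((ℕ × ℕ) × Bool) => s.2.2) (by fun_prop) h
  exact h'

theorem PT.cycC' {m : Bool} {α : Type} [Rep α] (H : SimpleGraph (Fin n)) {N : α → ℕ}
    {x : α → List Bool} {T : α → List (List Bool)} (hN : PT m N) (hx : PT m x) (hT : PT m T) :
    PT m (fun a => cycC H (N a) (x a) (T a)) := by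
  unfold cycC
  have h4 : PT m (fun z : ((((α × ℕ) × ℕ) × ℕ) × ℕ) =>
      b1 (Cr H) z.1.2 && (b2 (fun x y => y ∈ cn H x) z.1.2 z.2 && (b2 (Sim H) z.1.2
        (lk n (T z.1.1.1.1) z.1.1.1.2) && (b2 (Sim H) z.2 (lk n (T z.1.1.1.1) z.1.1.2) &&
          cycB H (N z.1.1.1.1) (x z.1.1.1.1) (T z.1.1.1.1) (z.1.1.1.2, z.1.1.2)
            (z.1.2, z.2))))) := by
    refine PT.and' (by fun_prop) (PT.and' (by fun_prop) (PT.and' (by fun_prop)
      (PT.and' (by fun_prop) ?_)))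
    exact PT.cycB' H (α := (((α × ℕ) × ℕ) × ℕ) × ℕ) (N := fun z => N z.1.1.1.1)
      (x := fun z => x z.1.1.1.1) (T := fun z => T z.1.1.1.1)
      (a₀ := fun z => (z.1.1.1.2, z.1.1.2)) (b₀ := fun z => (z.1.2, z.2)) (by fun_prop)
      (by fun_prop) (by fun_prop) (by fun_prop) (by fun_prop)
  have h3 : PT m (fun z : (((α × ℕ) × ℕ) × ℕ) => (List.range n).any fun v =>
      b1 (Cr H) z.2 && (b2 (fun x y => y ∈ cn H x) z.2 v && (b2 (Sim H) z.2
        (lk n (T z.1.1.1) z.1.1.2) && (b2 (Sim H) v (lk n (T z.1.1.1) z.1.2) &&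
          cycB H (N z.1.1.1) (x z.1.1.1) (T z.1.1.1) (z.1.1.2, z.1.2) (z.2, v))))) :=
    H64.Cook.PT.any' (m := m) (l := fun _ : (((α × ℕ) × ℕ) × ℕ) => List.range n)
      (PT.const' _) h4
  have h2 : PT m (fun z : ((α × ℕ) × ℕ) => (List.range n).any fun u => (List.range n).any fun v =>
      b1 (Cr H) u && (b2 (fun x y => y ∈ cn H x) u v && (b2 (Sim H) u
        (lk n (T z.1.1) z.1.2) && (b2 (Sim H) v (lk n (T z.1.1) z.2) &&
          cycB H (N z.1.1) (x z.1.1) (T z.1.1) (z.1.2, z.2) (u, v))))) :=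
    H64.Cook.PT.any' (m := m) (l := fun _ : ((α × ℕ) × ℕ) => List.range n)
      (PT.const' _) h3
  have h1 : PT m (fun z : ((α × ℕ) × ℕ) =>
      !(b1 (Cr H) (lk n (T z.1.1) z.1.2) && (b1 (Cr H) (lk n (T z.1.1) z.2) &&
        ment (x z.1.1) (N z.1.1) z.1.2 z.2)) ||
      (List.range n).any fun u => (List.range n).any fun v =>
      b1 (Cr H) u && (b2 (fun x y => y ∈ cn H x) u v && (b2 (Sim H) u
        (lk n (T z.1.1) z.1.2) && (b2 (Sim H) v (lk n (T z.1.1) z.2) &&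
          cycB H (N z.1.1) (x z.1.1) (T z.1.1) (z.1.2, z.2) (u, v))))) :=
    PT.or' (by fun_prop) h2
  have h0 : PT m (fun z : (α × ℕ) => (List.range (N z.1)).all fun q =>
      !(b1 (Cr H) (lk n (T z.1) z.2) && (b1 (Cr H) (lk n (T z.1) q) &&
        ment (x z.1) (N z.1) z.2 q)) ||
      (List.range n).any fun u => (List.range n).any fun v =>
      b1 (Cr H) u && (b2 (fun x y => y ∈ cn H x) u v && (b2 (Sim H) u
        (lk n (T z.1) z.2) && (b2 (Sim H) v (lk n (T z.1) q) &&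
          cycB H (N z.1) (x z.1) (T z.1) (z.2, q) (u, v))))) :=
    H64.Cook.PT.all' (m := m) (l := fun z : α × ℕ => List.range (N z.1)) (by fun_prop) h1
  exact H64.Cook.PT.all' (m := m) (l := fun a => List.range (N a)) (by fun_prop) h0

theorem lb_mem_P {n : ℕ} {H : SimpleGraph (Fin n)} (hc : H.Connected) (hb : ∀ v, ¬ Br H v) :
    LB H ∈ P := by
  classical
  obtain ⟨r, hr, hs⟩ := agH_stab H
  rw [mem_P_iff]
  have h0 : PT true (fun x : List Bool => mroot x.length) := by fun_prop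
  have hT : PT true (fun x : List Bool => rows H x (mroot x.length) r) :=
    PT.rows' H r (by fun_prop) h0
  have h1 : PT true (fun x : List Bool => up3_c H r x) :=
    PT.and' (PT.mchkG' n (by fun_prop) h0) (PT.tyC' H h0 (by fun_prop) hT)
  have h2 : PT true (fun x : List Bool => cycC H (mroot x.length) x
      (rows H x (mroot x.length) r)) := PT.cycC' H h0 (by fun_prop) hT
  have h3 : PT true (fun x : List Bool => up3_c H r x && cycC H (mroot x.length) x
      (rows H x (mroot x.length) r)) := PT.and' h1 h2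
  have key : ∀ (N : ℕ) (G : SimpleGraph (Fin N)), up3_c H r (enc G) = true →
      ((cycC H (mroot (enc G).length) (enc G) (rows H (enc G) (mroot (enc G).length) r) = true) ↔
        Covers G H) := by
    intro N G hcc
    have htc : tyC H N (enc G) (rows H (enc G) N r) = true := by
      unfold up3_c at hcc
      rw [enc_len, mroot_sq, Bool.and_eq_true] at hcc
      exact hcc.2
    have hlk : ∀ i : Fin N, lk n (rows H (enc G) N r) i < n := tyC_lk htc
    have hty : Typed G H (fun i => (⟨lk n (rows H (enc G) N r) i, hlk i⟩ : Fin n)) :=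
      (tyC_iff hlk).1 htc
    rw [enc_len, mroot_sq, nb_cov_iff hc hb hty]
    exact cycC_iff (fun _ => rfl) hty hb
  convert h3 using 2 with x
  rw [Bool.eq_iff_iff, decide_eq_true_eq, Bool.and_eq_true]
  constructor
  · rintro ⟨N, G, rfl, hG⟩
    have hc' := up3_check hs hG
    exact ⟨hc', (key N G hc').2 hG⟩
  · rintro ⟨hc', hC⟩
    have hcx := hc'
    unfold up3_c at hcx
    rw [Bool.and_eq_true] at hcx
    obtain ⟨G₀, hG₀, -⟩ := mchkG_spec hcx.1
    obtain ⟨N, G₁, hG₁⟩ : ∃ (N : ℕ) (G : SimpleGraph (Fin N)), x = enc G := ⟨_, G₀, hG₀⟩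
    clear hG₀ G₀ hcx
    subst hG₁
    exact ⟨N, G₁, rfl, (key N G₁ hc').1 hC⟩

end Pool.Agent.H24.GJ
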